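import Pool.Agent.NH86.Stars.Sign

/-!
# The instances
-/

namespace Pool.Agent.NH86.Stars

open Finset

section
variable {ι : Type} [Fintype ι] [DecidableEq ι] {m : ι → ℕ}

omit [Fintype ι] in
lemma sum_sgn (A P : Finset ι) (h : P ⊆ A) :
    ∑ i ∈ A, (if i ∈ P then (1:ℤ) else -1) = 2 * P.card - A.card := by
  rw [← sum_sdiff h]
  have h1 : ∑ i ∈ A \ P, (if i ∈ P then (1:ℤ) else -1) = ∑ i ∈ A \ P, (-1 : ℤ) :=
    sum_congr rfl fun i hi => if_neg (mem_sdiff.1 hi).2
  have h2 : ∑ i ∈ P, (if i ∈ P then (1:ℤ) else -1) = ∑ i ∈ P, (1 : ℤ) :=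
    sum_congr rfl fun i hi => if_pos hi
  rw [h1, h2, sum_const, sum_const, card_sdiff_of_subset h]
  have := card_le_card h
  simp only [nsmul_eq_mul]
  push_cast [Nat.cast_sub this]
  ring

lemma K2_of (v : ℕ) (q : ι → ℕ) (B : Finset ι) (hB : ∀ i ∈ B, m i = 8 * v + 1)
    (hS : ∀ i ∈ Bᶜ, m i = 6 * v + 2 * q i + 1) (hq : 2 * ∑ i ∈ Bᶜ, q i ≤ v)
    (hBc : 20 ≤ B.card) (hSc : 20 ≤ Bᶜ.card) (T : Finset ι) (hT : T.card ≤ 4) :
    ∃ ε : ι → ℤ, Sgn ε ∧ |∑ i ∈ Tᶜ, ε i * ((m i : ℤ) - 1)| ≤ (3 * v + 1 : ℕ) := by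
  classical
  have r4 : 16 ≤ (B \ T).card := by
    have := le_card_sdiff T B
    omega
  have r3 : 16 ≤ (Bᶜ \ T).card := by
    have := le_card_sdiff T Bᶜ
    omega
  obtain ⟨s3, s4, h3, h4, h34⟩ : ∃ s3 s4 : ℕ, s3 ≤ (Bᶜ \ T).card ∧ s4 ≤ (B \ T).card ∧
      (0 ≤ 6 * (2 * (s3 : ℤ) - (Bᶜ \ T).card) + 8 * (2 * (s4 : ℤ) - (B \ T).card) ∧
       6 * (2 * (s3 : ℤ) - (Bᶜ \ T).card) + 8 * (2 * (s4 : ℤ) - (B \ T).card) ≤ 2) := by
    generalize (Bᶜ \ T).card = a at *
    generalize (B \ T).card = b at *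
    rcases Nat.even_or_odd' a with ⟨c, rfl | rfl⟩
    · rcases Nat.even_or_odd' b with ⟨d, rfl | rfl⟩
      · exact ⟨c, d, by omega, by omega, by omega, by omega⟩
      · exact ⟨c - 2, d + 2, by omega, by omega, by omega, by omega⟩
    · rcases Nat.even_or_odd' b with ⟨d, rfl | rfl⟩
      · exact ⟨c + 2, d - 1, by omega, by omega, by omega, by omega⟩
      · exact ⟨c, d + 1, by omega, by omega, by omega, by omega⟩
  obtain ⟨P3, hP3, hc3⟩ := exists_subset_card_eq h3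
  obtain ⟨P4, hP4, hc4⟩ := exists_subset_card_eq h4
  set ε : ι → ℤ := fun i => if i ∈ P3 ∪ P4 then 1 else -1 with hε
  have hsg : Sgn ε := by
    intro i
    simp only [hε]
    split_ifs
    · left; rfl
    · right; rfl
  refine ⟨ε, hsg, ?_⟩
  have hsplit : ∑ i ∈ Tᶜ, ε i * ((m i : ℤ) - 1) =
      ∑ i ∈ Bᶜ \ T, ε i * ((m i : ℤ) - 1) + ∑ i ∈ B \ T, ε i * ((m i : ℤ) - 1) := by
    rw [← sum_union]
    · congr 1
      ext i
      simp only [mem_compl, mem_union, mem_sdiff]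
      tauto
    · rw [disjoint_left]
      intro i h1 h2
      exact (mem_compl.1 (mem_sdiff.1 h1).1) (mem_sdiff.1 h2).1
  have e4 : ∑ i ∈ B \ T, ε i * ((m i : ℤ) - 1) = 8 * v * (2 * (s4 : ℤ) - (B \ T).card) := by
    rw [← hc4, ← sum_sgn (B \ T) P4 hP4, Finset.mul_sum]
    refine sum_congr rfl fun i hi => ?_
    have hm := hB i (mem_sdiff.1 hi).1
    have : i ∉ P3 := fun h => mem_compl.1 (mem_sdiff.1 (hP3 h)).1 (mem_sdiff.1 hi).1
    simp only [hε, mem_union, this, false_or]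
    rw [hm]
    push_cast
    ring
  have e3 : ∑ i ∈ Bᶜ \ T, ε i * ((m i : ℤ) - 1) = 6 * v * (2 * (s3 : ℤ) - (Bᶜ \ T).card) +
      2 * ∑ i ∈ Bᶜ \ T, ε i * (q i : ℤ) := by
    rw [← hc3, ← sum_sgn (Bᶜ \ T) P3 hP3, Finset.mul_sum, Finset.mul_sum, ← sum_add_distrib]
    refine sum_congr rfl fun i hi => ?_
    have hm := hS i (mem_sdiff.1 hi).1
    have : i ∉ P4 := fun h => mem_compl.1 (mem_sdiff.1 hi).1 (mem_sdiff.1 (hP4 h)).1
    simp only [hε, mem_union, this, or_false]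
    rw [hm]
    push_cast
    ring
  have eq : |∑ i ∈ Bᶜ \ T, ε i * (q i : ℤ)| ≤ ∑ i ∈ Bᶜ, (q i : ℤ) := by
    refine (abs_sum_le_sum_abs _ _).trans ?_
    have hsub : ∑ i ∈ Bᶜ \ T, (q i : ℤ) ≤ ∑ i ∈ Bᶜ, (q i : ℤ) :=
      sum_le_sum_of_subset_of_nonneg sdiff_subset fun i _ _ => by positivity
    refine le_trans ?_ hsub
    refine sum_le_sum fun i _ => ?_
    rw [abs_mul]
    rcases hsg i with h | h
    · rw [h]; simp
    · rw [h]; simp
  have hq' : 2 * ∑ i ∈ Bᶜ, (q i : ℤ) ≤ v := by exact_mod_cast hq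
  rw [hsplit, e3, e4]
  rw [abs_le] at eq ⊢
  obtain ⟨g1, g2⟩ := h34
  have hv : (0 : ℤ) ≤ v := Int.natCast_nonneg v
  have k1 : 0 ≤ v * (6 * (2 * (s3 : ℤ) - (Bᶜ \ T).card) + 8 * (2 * (s4 : ℤ) - (B \ T).card)) :=
    mul_nonneg hv g1
  have k2 : v * (6 * (2 * (s3 : ℤ) - (Bᶜ \ T).card) + 8 * (2 * (s4 : ℤ) - (B \ T).card)) ≤ v * 2 :=
    mul_le_mul_of_nonneg_left g2 hv
  push_cast
  constructor
  · nlinarith
  · nlinarith

/-- the positive direction for the instances -/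
theorem choosable_inst (v : ℕ) (hv : 1 ≤ v) (q : ι → ℕ) (B : Finset ι)
    (hB : ∀ i ∈ B, m i = 8 * v + 1)
    (hS : ∀ i ∈ Bᶜ, m i = 6 * v + 2 * q i + 1) (hq : 2 * ∑ i ∈ Bᶜ, q i ≤ v)
    (hBc : 20 ≤ B.card) (hSc : 30 ≤ Bᶜ.card)
    (K1 : ∃ ε : ι → ℤ, Sgn ε ∧ ∑ i, ε i * ((m i : ℤ) - 1) = 0)
    (Λ : (i : ι) → Fin (m i + 1) → Finset ℕ) (hΛ : ∀ i t, (Λ i t).card = 2) :
    ∃ g : (i : ι) → Fin (m i + 1) → ℕ, (∀ i, PS (Λ i) (g i)) ∧
      ∀ z, 2 * ∑ i, cnt (g i) z ≤ tot m + 1 := by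
  have hqi : ∀ i ∈ Bᶜ, 2 * q i ≤ v := by
    intro i hi
    have := single_le_sum (f := q) (fun j _ => Nat.zero_le _) hi
    omega
  have hlow : ∀ i, 6 * v + 1 ≤ m i := by
    intro i
    by_cases hi : i ∈ B
    · rw [hB i hi]; omega
    · rw [hS i (mem_compl.2 hi)]; omega
  have hup : ∀ i, m i ≤ 8 * v + 1 := by
    intro i
    by_cases hi : i ∈ B
    · rw [hB i hi]
    · have := hqi i (mem_compl.2 hi)
      rw [hS i (mem_compl.2 hi)]; omega
  refine choosable (3 * v + 1) (fun i => by have := hlow i; omega)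
    (fun i => by have := hlow i; omega) K1 ?_ (fun i => ?_) ?_ Λ hΛ
  · intro T hT
    exact K2_of v q B hB hS hq hBc (by omega) T hT
  · have := hup i
    push_cast
    omega
  · have hcard : 50 ≤ Fintype.card ι := by
      have := card_compl_add_card B
      omega
    have h1 : 50 * (6 * v + 2) ≤ tot m := by
      unfold tot
      calc 50 * (6 * v + 2) ≤ Fintype.card ι * (6 * v + 2) := Nat.mul_le_mul_right _ hcard
        _ = ∑ _i : ι, (6 * v + 2) := by rw [sum_const, card_univ, smul_eq_mul]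
        _ ≤ _ := sum_le_sum fun i _ => by have := hlow i; omega
    have h2 : 3 * ∑ i, (m i + 1) ^ 2 ≤ 4 * (6 * v + 2) * tot m := by
      unfold tot
      rw [Finset.mul_sum, Finset.mul_sum]
      refine sum_le_sum fun i _ => ?_
      have := hup i
      have h3 : 3 * (m i + 1) ≤ 4 * (6 * v + 2) := by omega
      calc 3 * (m i + 1) ^ 2 = (3 * (m i + 1)) * (m i + 1) := by ring
        _ ≤ 4 * (6 * v + 2) * (m i + 1) := Nat.mul_le_mul_right _ h3
    nlinarith

end

/-- the numbers of leaves of the stars -/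
def tuple (x : List ℕ × ℕ) : List ℕ :=
  let s := x.1.sum
  let v := 8 * s + 1
  let b := x.1 ++ [2 * s - x.2, s + x.2]
  (b.flatMap fun y => [6 * v + 2 * y + 1, 6 * v + 1]) ++
    ((List.range 60).map (fun _ => 6 * v + 1) ++ (List.range 60).map (fun _ => 8 * v + 1))

lemma tuple_SS (x : List ℕ × ℕ) (hx : x.2 < x.1.sum) :
    SS ((tuple x).map fun (a : ℕ) => (a : ℤ) - 1) 0 ↔ ∃ s : List ℕ, s.Sublist x.1 ∧ s.sum = x.2 := by
  obtain ⟨l, t⟩ := x
  simp only at hx
  simp only [tuple]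
  set s := l.sum with hs
  set v := 8 * s + 1 with hv
  set b := l ++ [2 * s - t, s + t] with hb
  have hbs : b.sum = 4 * s := by
    rw [hb, List.sum_append, ← hs]
    simp only [List.sum_cons, List.sum_nil]
    omega
  have e1 : ((b.flatMap fun y => [6 * v + 2 * y + 1, 6 * v + 1]) ++
    ((List.range 60).map (fun _ => 6 * v + 1) ++ (List.range 60).map (fun _ => 8 * v + 1))).map
      (fun (a : ℕ) => (a : ℤ) - 1) = (b.flatMap fun (x : ℕ) => [6 * (v : ℤ) + 2 * (x : ℤ), 6 * (v : ℤ)]) ++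
      ((List.range 60).map (fun _ => 6 * (v : ℤ)) ++ (List.range 60).map (fun _ => 8 * (v : ℤ))) := by
    rw [List.map_append, List.map_append, List.map_flatMap, List.map_map, List.map_map]
    congr 1
    · refine List.flatMap_congr fun y _ => ?_
      simp
    · congr 1
      · refine List.map_congr_left fun y _ => ?_
        simp
      · refine List.map_congr_left fun y _ => ?_
        simp
  rw [e1]
  -- signed sums of b
  have e2 : SS (b.map fun (a : ℕ) => (a : ℤ)) 0 ↔ ∃ s : List ℕ, s.Sublist l ∧ s.sum = t := by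
    have h0 : (b.map fun (a : ℕ) => (a : ℤ)) = (l.map fun (a : ℕ) => (a : ℤ)) ++
        [2 * (s : ℤ) - t, s + t] := by
      rw [hb, List.map_append]
      congr 1
      simp only [List.map_cons, List.map_nil]
      congr 2
      · push_cast [Nat.cast_sub (show t ≤ 2 * s by omega)]
        ring
    rw [h0, SS_append]
    constructor
    · rintro ⟨w, w', h1, h2, h3⟩
      have habs := SS_abs h1
      rw [abs_le, ← hs] at habs
      simp only [SS] at h2
      have hpos : (0 : ℤ) ≤ t := Int.natCast_nonneg t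
      have hlt : (t : ℤ) < s := by exact_mod_cast hx
      rcases h2 with (h2 | h2) | (h2 | h2)
      · omega
      · have hw : -w = 2 * (t : ℤ) - s ∨ w = 2 * (t : ℤ) - s := by omega
        rcases hw with hw | hw
        · have := h1.neg
          rw [hw] at this
          obtain ⟨r, hr, hr2⟩ := (SS_sublist l _).1 this
          exact ⟨r, hr, by rw [← hs] at hr2; omega⟩
        · rw [hw] at h1
          obtain ⟨r, hr, hr2⟩ := (SS_sublist l _).1 h1
          exact ⟨r, hr, by rw [← hs] at hr2; omega⟩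
      · have hw : -w = 2 * (t : ℤ) - s ∨ w = 2 * (t : ℤ) - s := by omega
        rcases hw with hw | hw
        · have := h1.neg
          rw [hw] at this
          obtain ⟨r, hr, hr2⟩ := (SS_sublist l _).1 this
          exact ⟨r, hr, by rw [← hs] at hr2; omega⟩
        · rw [hw] at h1
          obtain ⟨r, hr, hr2⟩ := (SS_sublist l _).1 h1
          exact ⟨r, hr, by rw [← hs] at hr2; omega⟩
      · omega
    · rintro ⟨r, hr, hr2⟩
      refine ⟨2 * (t : ℤ) - s, s - 2 * t, (SS_sublist l _).2 ⟨r, hr, by rw [hr2, ← hs]⟩, ?_,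
        by ring⟩
      simp only [SS]
      left; right
      ring
  rw [← e2]
  constructor
  · intro h
    rw [SS_append] at h
    obtain ⟨z1, z2, h1, h2, h3⟩ := h
    obtain ⟨K, w, hw, e⟩ := SS_flat_fwd _ _ _ h1
    have hd : (2 * (v : ℤ)) ∣ z2 := by
      refine SS_dvd ?_ h2
      intro a ha
      rw [List.mem_append, List.mem_map, List.mem_map] at ha
      rcases ha with ⟨_, _, rfl⟩ | ⟨_, _, rfl⟩
      · exact ⟨3, by ring⟩
      · exact ⟨4, by ring⟩
    obtain ⟨K2, hK2⟩ := hd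
    have habs := SS_abs hw
    rw [hbs, abs_le] at habs
    push_cast at habs
    have hw0 : w = 0 := by
      have h4 : (v : ℤ) * (K + K2) = - w := by linarith
      by_contra hne
      have h5 : K + K2 ≠ 0 := by
        intro h0
        rw [h0] at h4
        apply hne
        linarith
      have hvv : (v : ℤ) = 8 * s + 1 := by rw [hv]; push_cast; ring
      have hs0 : (0 : ℤ) ≤ s := Int.natCast_nonneg s
      rcases lt_or_gt_of_ne h5 with h6 | h6
      · have : K + K2 ≤ -1 := by omega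
        nlinarith
      · have : 1 ≤ K + K2 := by omega
        nlinarith
    rw [hw0] at hw
    exact hw
  · intro h
    rw [SS_append]
    refine ⟨2 * 0, 0, SS_flat_bwd _ _ _ h, ?_, by ring⟩
    rw [SS_append]
    exact ⟨0, 0, SS_map_const 30 _, SS_map_const 30 _, by ring⟩

end Pool.Agent.NH86.Stars
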