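import Pool.Agent.NH86.Stars.Star

/-!
# Equitable list colourings of disjoint unions of stars of similar sizes
-/

namespace Pool.Agent.NH86.Stars

open Finset

/-- signs -/
def Sgn {ι : Type} (ε : ι → ℤ) : Prop := ∀ i, ε i = 1 ∨ ε i = -1

lemma Sgn.neg {ι : Type} {ε : ι → ℤ} (h : Sgn ε) : Sgn (fun i => - ε i) := by
  intro i
  rcases h i with h | h
  · right; simp only [h]
  · left; simp only [h]; norm_num

lemma greedy1 {ι : Type} [DecidableEq ι] (s : Finset ι) (a : ι → ℤ) (K : ℤ) (hK : 0 ≤ K)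
    (h0 : ∀ i, 0 ≤ a i) (h1 : ∀ i, a i ≤ K) :
    ∃ ε : ι → ℤ, Sgn ε ∧ |∑ i ∈ s, ε i * a i| ≤ K := by
  induction s using Finset.induction_on with
  | empty => exact ⟨fun _ => 1, fun _ => Or.inl rfl, by simpa using hK⟩
  | insert j s hj ih =>
    obtain ⟨ε, hε, hs⟩ := ih
    have key : ∀ e : ℤ, ∑ i ∈ insert j s, Function.update ε j e i * a i
        = e * a j + ∑ i ∈ s, ε i * a i := by
      intro e
      rw [sum_insert hj, Function.update_self]
      congr 1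
      refine sum_congr rfl fun i hi => ?_
      rw [Function.update_of_ne]
      rintro rfl
      exact hj hi
    have hsgn : ∀ e : ℤ, e = 1 ∨ e = -1 → Sgn (Function.update ε j e) := by
      intro e he i
      by_cases hi : i = j
      · subst hi; rw [Function.update_self]; exact he
      · rw [Function.update_of_ne hi]; exact hε i
    rw [abs_le] at hs
    rcases le_total 0 (∑ i ∈ s, ε i * a i) with h | h
    · refine ⟨_, hsgn (-1) (Or.inr rfl), ?_⟩
      rw [key, abs_le]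
      constructor
      · linarith [h1 j]
      · linarith [h0 j]
    · refine ⟨_, hsgn 1 (Or.inl rfl), ?_⟩
      rw [key, abs_le]
      constructor
      · linarith [h0 j]
      · linarith [h1 j]

lemma greedy2 {ι : Type} [DecidableEq ι] (s : Finset ι) (a b : ι → ℤ) :
    ∃ ε : ι → ℤ, Sgn ε ∧ (∑ i ∈ s, ε i * a i) ^ 2 + (∑ i ∈ s, ε i * b i) ^ 2 ≤
      ∑ i ∈ s, (a i ^ 2 + b i ^ 2) := by
  induction s using Finset.induction_on with
  | empty => exact ⟨fun _ => 1, fun _ => Or.inl rfl, by simp⟩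
  | insert j s hj ih =>
    obtain ⟨ε, hε, hs⟩ := ih
    have key : ∀ (c : ι → ℤ) (e : ℤ), ∑ i ∈ insert j s, Function.update ε j e i * c i
        = e * c j + ∑ i ∈ s, ε i * c i := by
      intro c e
      rw [sum_insert hj, Function.update_self]
      congr 1
      refine sum_congr rfl fun i hi => ?_
      rw [Function.update_of_ne]
      rintro rfl
      exact hj hi
    have hsgn : ∀ e : ℤ, e = 1 ∨ e = -1 → Sgn (Function.update ε j e) := by
      intro e he i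
      by_cases hi : i = j
      · subst hi; rw [Function.update_self]; exact he
      · rw [Function.update_of_ne hi]; exact hε i
    rw [sum_insert hj]
    set A := ∑ i ∈ s, ε i * a i
    set B := ∑ i ∈ s, ε i * b i
    rcases le_total 0 (A * a j + B * b j) with h | h
    · refine ⟨_, hsgn (-1) (Or.inr rfl), ?_⟩
      rw [key, key]
      nlinarith
    · refine ⟨_, hsgn 1 (Or.inl rfl), ?_⟩
      rw [key, key]
      nlinarith

lemma distribute {ι : Type} [DecidableEq ι] (s : Finset ι) (h X : ℕ) (hX : X ≤ h * s.card) :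
    ∃ Y : ι → ℕ, (∀ i, Y i ≤ h) ∧ (∀ i, i ∉ s → Y i = 0) ∧ ∑ i ∈ s, Y i = X := by
  induction s using Finset.induction_on generalizing X with
  | empty =>
    refine ⟨fun _ => 0, fun _ => Nat.zero_le _, fun _ _ => rfl, ?_⟩
    simp at hX ⊢
    exact hX.symm
  | insert j s hj ih =>
    rw [card_insert_of_notMem hj] at hX
    obtain ⟨Y, h1, h2, h3⟩ := ih (X - min X h) (by
      rcases le_total X h with hh | hh
      · rw [min_eq_left hh]; simp
      · rw [min_eq_right hh]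
        rw [Nat.mul_add] at hX
        omega)
    refine ⟨Function.update Y j (min X h), fun i => ?_, fun i hi => ?_, ?_⟩
    · by_cases hi : i = j
      · subst hi; rw [Function.update_self]; exact min_le_right _ _
      · rw [Function.update_of_ne hi]; exact h1 i
    · rw [mem_insert] at hi
      push Not at hi
      rw [Function.update_of_ne hi.1]
      exact h2 i hi.2
    · rw [sum_insert hj, Function.update_self]
      have : ∑ i ∈ s, Function.update Y j (min X h) i = ∑ i ∈ s, Y i := by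
        refine sum_congr rfl fun i hi => ?_
        rw [Function.update_of_ne]
        rintro rfl
        exact hj hi
      rw [this, h3]
      have := min_le_left X h
      omega

section
variable {ι : Type} [Fintype ι] [DecidableEq ι] {m : ι → ℕ}

/-- total number of vertices -/
def tot (m : ι → ℕ) : ℕ := ∑ i, (m i + 1)

lemma assemble {Λ : (i : ι) → Fin (m i + 1) → Finset ℕ} (hΛ : ∀ i t, (Λ i t).card = 2) {x y : ℕ}
    (hxy : x ≠ y) (T : Finset ι) (hT : ∀ i, i ∉ T → Λ i 0 = {x, y}) (ε : ι → ℤ) (hε : Sgn ε)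
    (Y : ι → ℕ) (hY : ∀ i ∈ T, Abs (Λ i) x y (Y i))
    (hX : ∑ i ∈ T, (Y i : ℤ) = ∑ i ∈ Tᶜ, ε i * ((m i : ℤ) - 1)) :
    ∃ g : (i : ι) → Fin (m i + 1) → ℕ, (∀ i, PS (Λ i) (g i)) ∧
      2 * ∑ i, cnt (g i) x ≤ tot m ∧ 2 * ∑ i, cnt (g i) y ≤ tot m := by
  classical
  have key : ∀ i, ∃ g : Fin (m i + 1) → ℕ, PS (Λ i) g ∧
      2 * (cnt g x : ℤ) ≤ ((m i : ℤ) + 1) + (if i ∈ T then - (Y i : ℤ) else ε i * ((m i : ℤ) - 1)) ∧
      2 * (cnt g y : ℤ) ≤ ((m i : ℤ) + 1) - (if i ∈ T then - (Y i : ℤ) else ε i * ((m i : ℤ) - 1)) := by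
    intro i
    by_cases hi : i ∈ T
    · obtain ⟨g, hg, h1, h2⟩ := hY i hi
      refine ⟨g, hg, ?_, ?_⟩
      · rw [if_pos hi]; omega
      · rw [if_pos hi]; omega
    · have h0 := hT i hi
      rcases hε i with he | he
      · obtain ⟨g, hg, h1, h2⟩ := star_S (hΛ i) hxy (by rw [h0]; simp)
        refine ⟨g, hg, ?_, ?_⟩
        · rw [if_neg hi, he]; omega
        · rw [if_neg hi, he]; omega
      · obtain ⟨g, hg, h1, h2⟩ := star_S (hΛ i) hxy.symm (by rw [h0]; simp)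
        refine ⟨g, hg, ?_, ?_⟩
        · rw [if_neg hi, he]; omega
        · rw [if_neg hi, he]; omega
  choose g hg h1 h2 using key
  have hsum : ∑ i, (if i ∈ T then - (Y i : ℤ) else ε i * ((m i : ℤ) - 1)) = 0 := by
    have e1 : ∑ i, (if i ∈ T then - (Y i : ℤ) else ε i * ((m i : ℤ) - 1)) =
        ∑ i ∈ T, - (Y i : ℤ) + ∑ i ∈ Tᶜ, ε i * ((m i : ℤ) - 1) := by
      rw [← Finset.sum_add_sum_compl T]
      congr 1
      · exact sum_congr rfl fun i hi => if_pos hi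
      · refine sum_congr rfl fun i hi => if_neg ?_
        exact mem_compl.1 hi
    rw [e1, sum_neg_distrib, hX]
    ring
  refine ⟨g, hg, ?_, ?_⟩
  · have := Finset.sum_le_sum (s := univ) (fun i _ => h1 i)
    rw [Finset.sum_add_distrib, hsum, ← Finset.mul_sum] at this
    unfold tot
    zify
    linarith
  · have := Finset.sum_le_sum (s := univ) (fun i _ => h2 i)
    rw [Finset.sum_sub_distrib, hsum, ← Finset.mul_sum] at this
    unfold tot
    zify
    linarith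

omit [Fintype ι] [DecidableEq ι] in
lemma sum_neg_eps {ε : ι → ℤ} (s : Finset ι) (p : ι → ℤ) :
    ∑ i ∈ s, (fun i => - ε i) i * p i = - ∑ i ∈ s, ε i * p i := by
  rw [← sum_neg_distrib]
  exact sum_congr rfl fun i _ => by ring

/-- Two colours `x`, `y`. -/
lemma two_heavy (h : ℕ) (hm : ∀ i, 4 ≤ m i) (hh : ∀ i, 2 * h ≤ m i + 2)
    (K1 : ∃ ε : ι → ℤ, Sgn ε ∧ ∑ i, ε i * ((m i : ℤ) - 1) = 0)
    (K2 : ∀ T : Finset ι, T.card ≤ 4 →
      ∃ ε : ι → ℤ, Sgn ε ∧ |∑ i ∈ Tᶜ, ε i * ((m i : ℤ) - 1)| ≤ h)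
    (K3 : ∀ i, (m i : ℤ) - 1 ≤ 3 * h)
    {Λ : (i : ι) → Fin (m i + 1) → Finset ℕ} (hΛ : ∀ i t, (Λ i t).card = 2) {x y : ℕ}
    (hxy : x ≠ y) :
    ∃ g : (i : ι) → Fin (m i + 1) → ℕ, (∀ i, PS (Λ i) (g i)) ∧
      2 * ∑ i, cnt (g i) x ≤ tot m ∧ 2 * ∑ i, cnt (g i) y ≤ tot m := by
  classical
  set T : Finset ι := univ.filter fun i => Λ i 0 ≠ {x, y} with hTdef
  have hTc : ∀ i, i ∉ T → Λ i 0 = {x, y} := by
    intro i hi
    by_contra hne
    exact hi (mem_filter.2 ⟨mem_univ _, hne⟩)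
  have hab : ∀ i ∈ T, (∀ Y, 2 * Y ≤ m i + 2 → Abs (Λ i) x y Y) ∨
      (∀ Y, 2 * Y ≤ m i + 2 → Abs (Λ i) y x Y) := fun i hi =>
    absorb (hm i) (hΛ i) hxy (mem_filter.1 hi).2
  set T1 := T.filter fun i => ∀ Y, 2 * Y ≤ m i + 2 → Abs (Λ i) x y Y with hT1
  set T2 := T.filter fun i => ¬ ∀ Y, 2 * Y ≤ m i + 2 → Abs (Λ i) x y Y with hT2
  have hcard : T1.card + T2.card = T.card := by
    rw [hT1, hT2]
    exact card_filter_add_card_filter_not _
  -- the two ways to finish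
  have fin1 : ∀ ε : ι → ℤ, Sgn ε → 0 ≤ ∑ i ∈ Tᶜ, ε i * ((m i : ℤ) - 1) →
      ∑ i ∈ Tᶜ, ε i * ((m i : ℤ) - 1) ≤ h * T1.card →
      ∃ g : (i : ι) → Fin (m i + 1) → ℕ, (∀ i, PS (Λ i) (g i)) ∧
      2 * ∑ i, cnt (g i) x ≤ tot m ∧ 2 * ∑ i, cnt (g i) y ≤ tot m := by
    intro ε hε h0 h1
    obtain ⟨X, hX⟩ := Int.eq_ofNat_of_zero_le h0
    rw [hX] at h1
    obtain ⟨Y, hY1, hY2, hY3⟩ := distribute T1 h X (by exact_mod_cast h1)
    refine assemble hΛ hxy T hTc ε hε Y ?_ ?_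
    · intro i hi
      by_cases hi1 : i ∈ T1
      · refine (mem_filter.1 hi1).2 _ ?_
        have := hY1 i
        have := hh i
        omega
      · rw [hY2 i hi1]
        rcases hab i hi with h' | h'
        · exact h' 0 (by omega)
        · exact (h' 0 (by omega)).symm0
    · rw [hX, ← hY3]
      push_cast
      symm
      refine sum_subset (filter_subset _ _) fun i _ hi => ?_
      rw [hY2 i hi]
      rfl
  have fin2 : ∀ ε : ι → ℤ, Sgn ε → 0 ≤ ∑ i ∈ Tᶜ, ε i * ((m i : ℤ) - 1) →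
      ∑ i ∈ Tᶜ, ε i * ((m i : ℤ) - 1) ≤ h * T2.card →
      ∃ g : (i : ι) → Fin (m i + 1) → ℕ, (∀ i, PS (Λ i) (g i)) ∧
      2 * ∑ i, cnt (g i) x ≤ tot m ∧ 2 * ∑ i, cnt (g i) y ≤ tot m := by
    intro ε hε h0 h1
    obtain ⟨X, hX⟩ := Int.eq_ofNat_of_zero_le h0
    rw [hX] at h1
    obtain ⟨Y, hY1, hY2, hY3⟩ := distribute T2 h X (by exact_mod_cast h1)
    have hTc' : ∀ i, i ∉ T → Λ i 0 = {y, x} := fun i hi => by
      rw [hTc i hi]; exact pair_comm _ _
    have := assemble hΛ hxy.symm T hTc' ε hε Y ?_ ?_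
    · obtain ⟨g, hg, h1, h2⟩ := this
      exact ⟨g, hg, h2, h1⟩
    · intro i hi
      by_cases hi1 : i ∈ T2
      · have h4 := (mem_filter.1 hi1).2
        rcases hab i hi with h' | h'
        · exact absurd h' h4
        · refine h' _ ?_
          have := hY1 i
          have := hh i
          omega
      · rw [hY2 i hi1]
        rcases hab i hi with h' | h'
        · exact (h' 0 (by omega)).symm0
        · exact h' 0 (by omega)
    · rw [hX, ← hY3]
      push_cast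
      symm
      refine sum_subset (filter_subset _ _) fun i _ hi => ?_
      rw [hY2 i hi]
      rfl
  -- with an absolute bound
  have fin : ∀ ε : ι → ℤ, Sgn ε → (|∑ i ∈ Tᶜ, ε i * ((m i : ℤ) - 1)| ≤ h * T1.card ∨
      |∑ i ∈ Tᶜ, ε i * ((m i : ℤ) - 1)| ≤ h * T2.card) →
      ∃ g : (i : ι) → Fin (m i + 1) → ℕ, (∀ i, PS (Λ i) (g i)) ∧
      2 * ∑ i, cnt (g i) x ≤ tot m ∧ 2 * ∑ i, cnt (g i) y ≤ tot m := by
    intro ε hε hor
    have hneg := sum_neg_eps (ε := ε) Tᶜ (fun i => (m i : ℤ) - 1)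
    rcases le_total 0 (∑ i ∈ Tᶜ, ε i * ((m i : ℤ) - 1)) with h0 | h0
    · rw [abs_of_nonneg h0] at hor
      rcases hor with hor | hor
      · exact fin1 ε hε h0 hor
      · exact fin2 ε hε h0 hor
    · rw [abs_of_nonpos h0] at hor
      rcases hor with hor | hor
      · exact fin1 _ hε.neg (by rw [hneg]; linarith) (by rw [hneg]; exact hor)
      · exact fin2 _ hε.neg (by rw [hneg]; linarith) (by rw [hneg]; exact hor)
  rcases Nat.eq_zero_or_pos T.card with hT0 | hTpos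
  · -- no exceptional star
    have hTe : T = ∅ := card_eq_zero.1 hT0
    obtain ⟨ε, hε, hs⟩ := K1
    refine fin ε hε (Or.inl ?_)
    rw [hTe, compl_empty, hs, abs_zero]
    positivity
  · rcases le_or_gt T.card 4 with hT4 | hT5
    · obtain ⟨ε, hε, hs⟩ := K2 T hT4
      refine fin ε hε ?_
      rcases Nat.eq_zero_or_pos T1.card with h1 | h1
      · right
        have h2 : 1 ≤ T2.card := by omega
        refine hs.trans ?_
        have : (1 : ℤ) ≤ T2.card := by exact_mod_cast h2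
        nlinarith [Int.natCast_nonneg h]
      · left
        refine hs.trans ?_
        have : (1 : ℤ) ≤ T1.card := by exact_mod_cast h1
        nlinarith [Int.natCast_nonneg h]
    · obtain ⟨ε, hε, hs⟩ := greedy1 Tᶜ (fun i => (m i : ℤ) - 1) (3 * h) (by positivity)
        (fun i => by have := hm i; omega) K3
      refine fin ε hε ?_
      rcases le_or_gt 3 T1.card with h1 | h1
      · left
        refine hs.trans ?_
        have : (3 : ℤ) ≤ T1.card := by exact_mod_cast h1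
        nlinarith [Int.natCast_nonneg h]
      · right
        refine hs.trans ?_
        have h2 : 3 ≤ T2.card := by omega
        have : (3 : ℤ) ≤ T2.card := by exact_mod_cast h2
        nlinarith [Int.natCast_nonneg h]

/-- Three colours. -/
lemma three_heavy (hW : 32 * ∑ i, (m i + 1) ^ 2 ≤ tot m ^ 2)
    {Λ : (i : ι) → Fin (m i + 1) → Finset ℕ} (hΛ : ∀ i t, (Λ i t).card = 2) {x y z : ℕ}
    (hy : 4 * ∑ i, nin (Λ i) y ≤ 3 * tot m) (hz : 4 * ∑ i, nin (Λ i) z ≤ 3 * tot m) :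
    ∃ g : (i : ι) → Fin (m i + 1) → ℕ, (∀ i, PS (Λ i) (g i)) ∧
      2 * ∑ i, cnt (g i) x ≤ tot m ∧ 2 * ∑ i, cnt (g i) y ≤ tot m ∧
      2 * ∑ i, cnt (g i) z ≤ tot m := by
  classical
  choose a b ha hb hab using fun i => compl (hΛ i)
  set δ : ℕ → ι → ℤ := fun w i => (cnt (a i) w : ℤ) - cnt (b i) w with hδ
  have hle : ∀ w i, (δ w i) ^ 2 ≤ ((m i : ℤ) + 1) ^ 2 := by
    intro w i
    have h1 : cnt (a i) w ≤ m i + 1 := (cnt_le_nin (ha i) w).trans (nin_le _ _)
    have h2 : cnt (b i) w ≤ m i + 1 := (cnt_le_nin (hb i) w).trans (nin_le _ _)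
    refine sq_le_sq' ?_ ?_
    · simp only [hδ]; omega
    · simp only [hδ]; omega
  obtain ⟨ε0, hε0, hs0⟩ := greedy2 univ (δ y) (δ z)
  -- choose the global sign
  obtain ⟨ε, hε, hs, hx⟩ : ∃ ε : ι → ℤ, Sgn ε ∧ (∑ i, ε i * δ y i) ^ 2 + (∑ i, ε i * δ z i) ^ 2 ≤
      ∑ i, ((δ y i) ^ 2 + (δ z i) ^ 2) ∧ ∑ i, ε i * δ x i ≤ 0 := by
    rcases le_total (∑ i, ε0 i * δ x i) 0 with h | h
    · exact ⟨ε0, hε0, hs0, h⟩
    · refine ⟨_, hε0.neg, ?_, ?_⟩
      · rw [sum_neg_eps, sum_neg_eps, neg_sq, neg_sq]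
        exact hs0
      · rw [sum_neg_eps]
        linarith
  have hg : ∀ i, ∃ g : Fin (m i + 1) → ℕ, PS (Λ i) g ∧ ∀ w,
      2 * (cnt g w : ℤ) = nin (Λ i) w + ε i * δ w i := by
    intro i
    rcases hε i with h | h
    · refine ⟨a i, ha i, fun w => ?_⟩
      rw [h, ← hab i w]
      simp only [hδ]
      push_cast
      ring
    · refine ⟨b i, hb i, fun w => ?_⟩
      rw [h, ← hab i w]
      simp only [hδ]
      push_cast
      ring
  choose g hgP hgc using hg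
  have hsum : ∀ w, 2 * ((∑ i, cnt (g i) w : ℕ) : ℤ) = (∑ i, nin (Λ i) w : ℕ) + ∑ i, ε i * δ w i := by
    intro w
    push_cast
    rw [Finset.mul_sum, ← Finset.sum_add_distrib]
    exact sum_congr rfl fun i _ => hgc i w
  have hW' : 32 * ∑ i, ((m i : ℤ) + 1) ^ 2 ≤ (tot m : ℤ) ^ 2 := by
    have : ((32 * ∑ i, (m i + 1) ^ 2 : ℕ) : ℤ) ≤ ((tot m ^ 2 : ℕ) : ℤ) := by exact_mod_cast hW
    push_cast at this
    exact this
  have hbd : ∑ i, ((δ y i) ^ 2 + (δ z i) ^ 2) ≤ 2 * ∑ i, ((m i : ℤ) + 1) ^ 2 := by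
    rw [Finset.mul_sum]
    refine sum_le_sum fun i _ => ?_
    linarith [hle y i, hle z i]
  have hyl : 4 * ∑ i, ε i * δ y i ≤ tot m := by
    have h16 : (4 * ∑ i, ε i * δ y i) ^ 2 ≤ (tot m : ℤ) ^ 2 := by
      nlinarith [sq_nonneg (∑ i, ε i * δ z i)]
    exact (abs_le_of_sq_le_sq' h16 (by positivity)).2
  have hzl : 4 * ∑ i, ε i * δ z i ≤ tot m := by
    have h16 : (4 * ∑ i, ε i * δ z i) ^ 2 ≤ (tot m : ℤ) ^ 2 := by
      nlinarith [sq_nonneg (∑ i, ε i * δ y i)]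
    exact (abs_le_of_sq_le_sq' h16 (by positivity)).2
  have hNx : ∑ i, nin (Λ i) x ≤ tot m := sum_le_sum fun i _ => nin_le _ _
  refine ⟨g, hgP, ?_, ?_, ?_⟩
  · have := hsum x
    omega
  · have := hsum y
    omega
  · have := hsum z
    omega

lemma nin_sum {k : ℕ} {Λ : Fin (k + 1) → Finset ℕ} (hΛ : ∀ t, (Λ t).card = 2) (F : Finset ℕ) :
    ∑ x ∈ F, nin Λ x ≤ 2 * (k + 1) := by
  classical
  unfold nin
  simp_rw [card_filter]
  rw [sum_comm]
  calc ∑ t : Fin (k + 1), ∑ x ∈ F, (if x ∈ Λ t then 1 else 0)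
      ≤ ∑ t : Fin (k + 1), 2 := by
        refine sum_le_sum fun t _ => ?_
        rw [← card_filter, ← hΛ t]
        refine card_le_card fun x hx => (mem_filter.1 hx).2
    _ = 2 * (k + 1) := by
        rw [sum_const, card_univ, Fintype.card_fin, smul_eq_mul, mul_comm]

omit [DecidableEq ι] in
lemma tot_nin_sum {Λ : (i : ι) → Fin (m i + 1) → Finset ℕ} (hΛ : ∀ i t, (Λ i t).card = 2)
    (F : Finset ℕ) : ∑ x ∈ F, ∑ i, nin (Λ i) x ≤ 2 * tot m := by
  rw [sum_comm]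
  unfold tot
  rw [Finset.mul_sum]
  exact sum_le_sum fun i _ => nin_sum (hΛ i) F

/-- **The positive direction.** -/
theorem choosable (h : ℕ) (hm : ∀ i, 4 ≤ m i) (hh : ∀ i, 2 * h ≤ m i + 2)
    (K1 : ∃ ε : ι → ℤ, Sgn ε ∧ ∑ i, ε i * ((m i : ℤ) - 1) = 0)
    (K2 : ∀ T : Finset ι, T.card ≤ 4 →
      ∃ ε : ι → ℤ, Sgn ε ∧ |∑ i ∈ Tᶜ, ε i * ((m i : ℤ) - 1)| ≤ h)
    (K3 : ∀ i, (m i : ℤ) - 1 ≤ 3 * h) (hW : 32 * ∑ i, (m i + 1) ^ 2 ≤ tot m ^ 2)
    (Λ : (i : ι) → Fin (m i + 1) → Finset ℕ) (hΛ : ∀ i t, (Λ i t).card = 2) :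
    ∃ g : (i : ι) → Fin (m i + 1) → ℕ, (∀ i, PS (Λ i) (g i)) ∧
      ∀ z, 2 * ∑ i, cnt (g i) z ≤ tot m + 1 := by
  classical
  by_cases hcase : ∃ x y : ℕ, x ≠ y ∧ ∀ z, z ≠ x → z ≠ y → 2 * ∑ i, nin (Λ i) z ≤ tot m + 1
  · obtain ⟨x, y, hxy, hz⟩ := hcase
    obtain ⟨g, hg, h1, h2⟩ := two_heavy h hm hh K1 K2 K3 hΛ hxy
    refine ⟨g, hg, fun z => ?_⟩
    by_cases hzx : z = x
    · subst hzx; omega
    · by_cases hzy : z = y
      · subst hzy; omega
      · refine le_trans ?_ (hz z hzx hzy)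
        exact Nat.mul_le_mul_left _ (sum_le_sum fun i _ => cnt_le_nin (hg i) z)
  · push Not at hcase
    obtain ⟨z1, _, _, h1⟩ := hcase 0 1 (by norm_num)
    obtain ⟨z2, h21, _, h2⟩ := hcase z1 (z1 + 1) (by omega)
    obtain ⟨z3, h31, h32, h3⟩ := hcase z1 z2 h21.symm
    -- order the three heavy colours
    have main : ∀ x y z : ℕ, x ≠ y → x ≠ z → y ≠ z → tot m + 1 < 2 * ∑ i, nin (Λ i) x →
        tot m + 1 < 2 * ∑ i, nin (Λ i) y → tot m + 1 < 2 * ∑ i, nin (Λ i) z →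
        ∑ i, nin (Λ i) y ≤ ∑ i, nin (Λ i) x → ∑ i, nin (Λ i) z ≤ ∑ i, nin (Λ i) x →
        ∃ g : (i : ι) → Fin (m i + 1) → ℕ, (∀ i, PS (Λ i) (g i)) ∧
      ∀ z, 2 * ∑ i, cnt (g i) z ≤ tot m + 1 := by
      intro x y z hxy hxz hyz hx hy hz hyx hzx
      have hs3 := tot_nin_sum hΛ ({x, y, z} : Finset ℕ)
      rw [sum_insert (by rw [mem_insert, mem_singleton]; push Not; exact ⟨hxy, hxz⟩),
        sum_insert (by rw [mem_singleton]; exact hyz), sum_singleton] at hs3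
      obtain ⟨g, hg, g1, g2, g3⟩ := three_heavy (x := x) hW hΛ (y := y) (z := z)
        (by omega) (by omega)
      refine ⟨g, hg, fun w => ?_⟩
      by_cases hwx : w = x
      · subst hwx; omega
      by_cases hwy : w = y
      · subst hwy; omega
      by_cases hwz : w = z
      · subst hwz; omega
      have hs4 := tot_nin_sum hΛ ({w, x, y, z} : Finset ℕ)
      rw [sum_insert (by rw [mem_insert, mem_insert, mem_singleton]; push Not;
                         exact ⟨hwx, hwy, hwz⟩),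
        sum_insert (by rw [mem_insert, mem_singleton]; push Not; exact ⟨hxy, hxz⟩),
        sum_insert (by rw [mem_singleton]; exact hyz), sum_singleton] at hs4
      have : ∑ i, cnt (g i) w ≤ ∑ i, nin (Λ i) w := sum_le_sum fun i _ => cnt_le_nin (hg i) w
      omega
    rcases le_total (∑ i, nin (Λ i) z1) (∑ i, nin (Λ i) z2) with a | a
    · rcases le_total (∑ i, nin (Λ i) z2) (∑ i, nin (Λ i) z3) with b | b
      · exact main z3 z1 z2 h31 h32 h21.symm h3 h1 h2 (a.trans b) b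
      · exact main z2 z1 z3 h21 h32.symm h31.symm h2 h1 h3 a b
    · rcases le_total (∑ i, nin (Λ i) z1) (∑ i, nin (Λ i) z3) with b | b
      · exact main z3 z1 z2 h31 h32 h21.symm h3 h1 h2 b (a.trans b)
      · exact main z1 z2 z3 h21.symm h31.symm h32.symm h1 h2 h3 a b

end

end Pool.Agent.NH86.Stars
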