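import Pool.Agent.NH86.Stars.Main

/-!
# Signed sums
-/

namespace Pool.Agent.NH86.Stars

open Finset

/-- `z` is a signed sum of the list -/
def SS : List ℤ → ℤ → Prop
  | [], z => z = 0
  | a :: l, z => SS l (z - a) ∨ SS l (z + a)

lemma SS_iff {α : Type} (f : α → ℤ) (l : List α) (z : ℤ) :
    SS (l.map f) z ↔ ∃ ε : Fin l.length → ℤ, Sgn ε ∧ ∑ i : Fin l.length, ε i * f l[i.1] = z := by
  induction l generalizing z with
  | nil =>
    simp only [List.map_nil, SS]
    constructor
    · rintro rfl
      exact ⟨fun _ => 1, fun _ => Or.inl rfl, by simp⟩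
    · rintro ⟨ε, _, h⟩
      simpa using h.symm
  | cons a l ih =>
    simp only [List.map_cons, SS]
    rw [ih, ih]
    constructor
    · rintro (⟨ε, hε, h⟩ | ⟨ε, hε, h⟩)
      · refine ⟨Fin.cons (1 : ℤ) ε, ?_, ?_⟩
        · intro i
          refine Fin.cases ?_ (fun j => ?_) i
          · left; rfl
          · exact hε j
        · show ∑ i : Fin (l.length + 1), _ = z
          rw [Fin.sum_univ_succ]
          simp only [Fin.cons_zero, Fin.cons_succ, Fin.val_succ, List.getElem_cons_succ,
            Fin.val_zero, List.getElem_cons_zero]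
          rw [h]
          ring
      · refine ⟨Fin.cons (-1 : ℤ) ε, ?_, ?_⟩
        · intro i
          refine Fin.cases ?_ (fun j => ?_) i
          · right; rfl
          · exact hε j
        · show ∑ i : Fin (l.length + 1), _ = z
          rw [Fin.sum_univ_succ]
          simp only [Fin.cons_zero, Fin.cons_succ, Fin.val_succ, List.getElem_cons_succ,
            Fin.val_zero, List.getElem_cons_zero]
          rw [h]
          ring
    · rintro ⟨ε, hε, h⟩
      change ∑ i : Fin (l.length + 1), _ = z at h
      rw [Fin.sum_univ_succ] at h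
      simp only [Fin.val_succ, List.getElem_cons_succ,
            Fin.val_zero, List.getElem_cons_zero] at h
      rcases hε 0 with h0 | h0
      · left
        refine ⟨fun i => ε i.succ, fun i => hε _, ?_⟩
        rw [h0] at h
        linarith
      · right
        refine ⟨fun i => ε i.succ, fun i => hε _, ?_⟩
        rw [h0] at h
        linarith

lemma SS.neg {l : List ℤ} {z : ℤ} (h : SS l z) : SS l (-z) := by
  induction l generalizing z with
  | nil => simp only [SS] at h ⊢; omega
  | cons a l ih =>
    simp only [SS] at h ⊢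
    rcases h with h | h
    · right
      have := ih h
      rwa [show -(z - a) = -z + a by ring] at this
    · left
      have := ih h
      rwa [show -(z + a) = -z - a by ring] at this

lemma SS_append (l l' : List ℤ) (z : ℤ) :
    SS (l ++ l') z ↔ ∃ a b, SS l a ∧ SS l' b ∧ a + b = z := by
  induction l generalizing z with
  | nil =>
    simp only [List.nil_append, SS]
    constructor
    · intro h
      exact ⟨0, z, rfl, h, by ring⟩
    · rintro ⟨a, b, rfl, h, rfl⟩
      simpa using h
  | cons c l ih =>
    simp only [List.cons_append, SS]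
    rw [ih, ih]
    constructor
    · rintro (⟨a, b, h1, h2, h3⟩ | ⟨a, b, h1, h2, h3⟩)
      · exact ⟨a + c, b, Or.inl (by simpa using h1), h2, by linarith⟩
      · exact ⟨a - c, b, Or.inr (by simpa using h1), h2, by linarith⟩
    · rintro ⟨a, b, h1 | h1, h2, h3⟩
      · exact Or.inl ⟨_, b, h1, h2, by linarith⟩
      · exact Or.inr ⟨_, b, h1, h2, by linarith⟩

lemma SS_abs {l : List ℕ} {z : ℤ} (h : SS (l.map fun (a : ℕ) => (a : ℤ)) z) : |z| ≤ (l.sum : ℕ) := by
  induction l generalizing z with
  | nil => simp only [List.map_nil, SS] at h; simp [h]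
  | cons a l ih =>
    simp only [List.map_cons, SS] at h
    rw [List.sum_cons]
    push_cast
    rw [abs_le]
    rcases h with h | h
    · have := ih h
      rw [abs_le] at this
      push_cast at this
      constructor <;> linarith
    · have := ih h
      rw [abs_le] at this
      push_cast at this
      constructor <;> linarith

lemma SS_sublist (l : List ℕ) (z : ℤ) : SS (l.map fun (a : ℕ) => (a : ℤ)) z ↔
    ∃ s : List ℕ, s.Sublist l ∧ 2 * (s.sum : ℤ) - l.sum = z := by
  induction l generalizing z with
  | nil =>
    simp only [List.map_nil, SS]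
    constructor
    · rintro rfl
      exact ⟨[], List.Sublist.slnil, by simp⟩
    · rintro ⟨s, hs, h⟩
      rw [List.sublist_nil] at hs
      subst hs
      simpa using h.symm
  | cons a l ih =>
    simp only [List.map_cons, SS]
    rw [ih, ih]
    constructor
    · rintro (⟨s, hs, h⟩ | ⟨s, hs, h⟩)
      · refine ⟨a :: s, hs.cons_cons a, ?_⟩
        rw [List.sum_cons, List.sum_cons, Nat.cast_add, Nat.cast_add]
        linarith
      · refine ⟨s, hs.cons a, ?_⟩
        rw [List.sum_cons, Nat.cast_add]
        linarith
    · rintro ⟨s, hs, h⟩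
      rw [List.sum_cons, Nat.cast_add] at h
      cases hs with
      | cons _ hs => exact Or.inr ⟨s, hs, by linarith⟩
      | cons_cons _ hs =>
        rename_i s'
        rw [List.sum_cons, Nat.cast_add] at h
        exact Or.inl ⟨s', hs, by linarith⟩

/-- all entries multiples of `c` -/
lemma SS_dvd {l : List ℤ} {c : ℤ} (hl : ∀ a ∈ l, c ∣ a) {z : ℤ} (h : SS l z) : c ∣ z := by
  induction l generalizing z with
  | nil => simp only [SS] at h; simp [h]
  | cons a l ih =>
    simp only [SS] at h
    have ha := hl a (by simp)
    have hl' : ∀ b ∈ l, c ∣ b := fun b hb => hl b (by simp [hb])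
    rcases h with h | h
    · have := ih hl' h
      have := dvd_add this ha
      simpa using this
    · have := ih hl' h
      have := dvd_sub this ha
      simpa using this

/-- an even number of equal entries -/
lemma SS_map_const (n : ℕ) (c : ℤ) : SS ((List.range (2 * n)).map fun _ => c) 0 := by
  induction n with
  | zero => simp [SS]
  | succ n ih =>
    have : 2 * (n + 1) = 2 * n + 1 + 1 := by ring
    rw [this, List.range_succ, List.range_succ, List.map_append, List.map_append, SS_append]
    refine ⟨c, -c, ?_, ?_, by ring⟩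
    · rw [SS_append]
      exact ⟨0, c, ih, Or.inl (by simp [SS]), by ring⟩
    · exact Or.inr (by simp [SS])

lemma SS_flat_fwd (v : ℤ) (b : List ℕ) (z : ℤ)
    (h : SS (b.flatMap fun (x : ℕ) => [6 * v + 2 * (x : ℤ), 6 * v]) z) :
    ∃ K w : ℤ, SS (b.map fun (a : ℕ) => (a : ℤ)) w ∧ z = 2 * v * K + 2 * w := by
  induction b generalizing z with
  | nil =>
    simp only [List.flatMap_nil, SS] at h
    exact ⟨0, 0, by simp [SS], by rw [h]; ring⟩
  | cons x b ih =>
    rw [List.flatMap_cons] at h
    simp only [List.cons_append, List.nil_append, SS] at h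
    simp only [List.map_cons, SS]
    rcases h with (h | h) | (h | h)
    · obtain ⟨K, w, hw, e⟩ := ih _ h
      exact ⟨K + 6, w + x, Or.inl (by simpa using hw), by linarith⟩
    · obtain ⟨K, w, hw, e⟩ := ih _ h
      exact ⟨K, w + x, Or.inl (by simpa using hw), by linarith⟩
    · obtain ⟨K, w, hw, e⟩ := ih _ h
      exact ⟨K, w - x, Or.inr (by simpa using hw), by linarith⟩
    · obtain ⟨K, w, hw, e⟩ := ih _ h
      exact ⟨K - 6, w - x, Or.inr (by simpa using hw), by linarith⟩

lemma SS_flat_bwd (v : ℤ) (b : List ℕ) (w : ℤ) (h : SS (b.map fun (a : ℕ) => (a : ℤ)) w) :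
    SS (b.flatMap fun (x : ℕ) => [6 * v + 2 * (x : ℤ), 6 * v]) (2 * w) := by
  induction b generalizing w with
  | nil =>
    simp only [List.map_nil, SS] at h
    simp [SS, h]
  | cons x b ih =>
    rw [List.flatMap_cons]
    simp only [List.map_cons, SS] at h
    simp only [List.cons_append, List.nil_append, SS]
    rcases h with h | h
    · left; right
      have := ih _ h
      rwa [show 2 * (w - (x:ℤ)) = 2 * w - (6 * v + 2 * (x:ℤ)) + 6 * v by ring] at this
    · right; left
      have := ih _ h
      rwa [show 2 * (w + (x:ℤ)) = 2 * w + (6 * v + 2 * (x:ℤ)) - 6 * v by ring] at this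

end Pool.Agent.NH86.Stars
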