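import Mathlib

/-!
# List colourings of one star
-/

namespace Pool.Agent.NH86.Stars

open Finset

/-- number of vertices of the star of colour `x` -/
def cnt {k : ℕ} (g : Fin (k + 1) → ℕ) (x : ℕ) : ℕ := (univ.filter (fun t => g t = x)).card

/-- `g` is a proper colouring of the star with centre `0` from the lists `Λ` -/
def PS {k : ℕ} (Λ : Fin (k + 1) → Finset ℕ) (g : Fin (k + 1) → ℕ) : Prop :=
  (∀ t, g t ∈ Λ t) ∧ ∀ t, t ≠ 0 → g t ≠ g 0

lemma card_univ_erase (k : ℕ) : ((univ : Finset (Fin (k + 1))).erase 0).card = k := by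
  rw [card_erase_of_mem (mem_univ _), card_univ, Fintype.card_fin]; rfl

lemma cnt_le_of {k : ℕ} (g : Fin (k + 1) → ℕ) (x : ℕ) (h : g 0 ≠ x) : cnt g x ≤ k := by
  refine le_trans (card_le_card fun t ht => ?_) (card_univ_erase k).le
  rw [mem_filter] at ht
  refine mem_erase.2 ⟨?_, mem_univ _⟩
  rintro rfl
  exact h ht.2

lemma cnt_centre {k : ℕ} (g : Fin (k + 1) → ℕ) (h : ∀ t, t ≠ 0 → g t ≠ g 0) : cnt g (g 0) ≤ 1 := by
  rw [cnt, card_le_one]
  intro a ha b hb
  rw [mem_filter] at ha hb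
  have ha' : a = 0 := by
    by_contra hne
    exact h a hne ha.2
  have hb' : b = 0 := by
    by_contra hne
    exact h b hne hb.2
  rw [ha', hb']

lemma exists_ne_of_card {s : Finset ℕ} (h : s.card = 2) (c : ℕ) : ∃ z ∈ s, z ≠ c := by
  exact Finset.exists_mem_ne (by omega) c

/-- centre list `{x,y}`, centre coloured `y` -/
lemma star_S {k : ℕ} {Λ : Fin (k + 1) → Finset ℕ} (hΛ : ∀ t, (Λ t).card = 2) {x y : ℕ}
    (hxy : x ≠ y) (h0 : y ∈ Λ 0) : ∃ g, PS Λ g ∧ cnt g x ≤ k ∧ cnt g y ≤ 1 := by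
  choose z hz hzy using fun t => exists_ne_of_card (hΛ t) y
  refine ⟨fun t => if t = 0 then y else z t, ⟨fun t => ?_, fun t ht => ?_⟩, ?_, ?_⟩
  · dsimp only
    split_ifs with h
    · rw [h]; exact h0
    · exact hz t
  · simp only [if_neg ht, if_pos]
    exact hzy t
  · refine cnt_le_of _ _ ?_
    simp only [if_pos]
    exact hxy.symm
  · have := cnt_centre (fun t : Fin (k + 1) => if t = 0 then y else z t) (fun t ht => by
      simp only [if_neg ht, if_pos]
      exact hzy t)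
    simpa using this

/-- number of leaves with list `A` -/
def nl {k : ℕ} (Λ : Fin (k + 1) → Finset ℕ) (A : Finset ℕ) : ℕ :=
  ((univ.erase 0).filter (fun t => Λ t = A)).card

lemma eq_pair {s : Finset ℕ} (h : s.card = 2) {a b : ℕ} (ha : a ∈ s) (hb : b ∈ s) (hab : a ≠ b) :
    s = {a, b} := by
  symm
  refine Finset.eq_of_subset_of_card_le ?_ ?_
  · intro z hz
    rw [mem_insert, mem_singleton] at hz
    rcases hz with rfl | rfl
    · exact ha
    · exact hb
  · rw [h, card_pair hab]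

lemma flex {k : ℕ} {Λ : Fin (k + 1) → Finset ℕ} (hΛ : ∀ t, (Λ t).card = 2) {x y c : ℕ}
    (hxy : x ≠ y) (hc : c ∈ Λ 0) (hcx : c ≠ x) (hcy : c ≠ y) {s : ℕ} (hs : s ≤ nl Λ {x, y}) :
    ∃ g, PS Λ g ∧ cnt g x ≤ nl Λ {c, x} + s ∧ cnt g y ≤ nl Λ {c, y} + (nl Λ {x, y} - s) := by
  classical
  obtain ⟨R, hR, hRs⟩ := Finset.exists_subset_card_eq hs
  have key : ∀ t : Fin (k + 1), ∃ v, v ∈ Λ t ∧ (t = 0 → v = c) ∧ (t ≠ 0 → v ≠ c ∧
      (v = x → Λ t = {c, x} ∨ t ∈ R) ∧ (v = y → Λ t = {c, y} ∨ (Λ t = {x, y} ∧ t ∉ R))) := by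
    intro t
    by_cases ht : t = 0
    · subst ht
      exact ⟨c, hc, fun _ => rfl, fun h => absurd rfl h⟩
    · by_cases hA : Λ t = {x, y}
      · by_cases htR : t ∈ R
        · refine ⟨x, by rw [hA]; simp, fun h => absurd h ht, fun _ => ⟨hcx.symm, fun _ => Or.inr htR,
            fun h => absurd h hxy⟩⟩
        · refine ⟨y, by rw [hA]; simp, fun h => absurd h ht, fun _ => ⟨hcy.symm,
            fun h => absurd h.symm hxy, fun _ => Or.inr ⟨hA, htR⟩⟩⟩
      · have hne : ∃ z ∈ Λ t, z ≠ x ∧ z ≠ y := by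
          by_contra hcon
          push Not at hcon
          apply hA
          refine Finset.eq_of_subset_of_card_le ?_ ?_
          · intro z hz
            rw [mem_insert, mem_singleton]
            by_cases hzx : z = x
            · exact Or.inl hzx
            · exact Or.inr (hcon z hz hzx)
          · rw [hΛ t, card_pair hxy]
        obtain ⟨z, hz, hzx, hzy⟩ := hne
        by_cases hzc : z = c
        · subst hzc
          obtain ⟨w, hw, hwz⟩ := exists_ne_of_card (hΛ t) z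
          have hp := eq_pair (hΛ t) hz hw hwz.symm
          refine ⟨w, hw, fun h => absurd h ht, fun _ => ⟨hwz, fun h => Or.inl ?_,
            fun h => Or.inl ?_⟩⟩
          · rw [hp, h]
          · rw [hp, h]
        · exact ⟨z, hz, fun h => absurd h ht, fun _ => ⟨hzc, fun h => absurd h hzx,
            fun h => absurd h hzy⟩⟩
  choose g hg hg0 hg1 using key
  have hg00 : g 0 = c := hg0 0 rfl
  refine ⟨g, ⟨hg, fun t ht => ?_⟩, ?_, ?_⟩
  · rw [hg00]; exact (hg1 t ht).1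
  · have hsub : univ.filter (fun t => g t = x) ⊆
        ((univ.erase 0).filter (fun t => Λ t = {c, x})) ∪ R := by
      intro t ht
      rw [mem_filter] at ht
      have ht0 : t ≠ 0 := by
        rintro rfl
        rw [hg00] at ht
        exact hcx ht.2
      rw [mem_union, mem_filter, mem_erase]
      rcases (hg1 t ht0).2.1 ht.2 with h | h
      · exact Or.inl ⟨⟨ht0, mem_univ _⟩, h⟩
      · exact Or.inr h
    calc cnt g x ≤ _ := card_le_card hsub
      _ ≤ _ := card_union_le _ _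
      _ = _ := by rw [hRs]; rfl
  · have hsub : univ.filter (fun t => g t = y) ⊆
        ((univ.erase 0).filter (fun t => Λ t = {c, y})) ∪
        (((univ.erase 0).filter (fun t => Λ t = {x, y})) \ R) := by
      intro t ht
      rw [mem_filter] at ht
      have ht0 : t ≠ 0 := by
        rintro rfl
        rw [hg00] at ht
        exact hcy ht.2
      rw [mem_union, mem_filter, mem_erase, mem_sdiff, mem_filter, mem_erase]
      rcases (hg1 t ht0).2.2 ht.2 with h | h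
      · exact Or.inl ⟨⟨ht0, mem_univ _⟩, h⟩
      · exact Or.inr ⟨⟨⟨ht0, mem_univ _⟩, h.1⟩, h.2⟩
    calc cnt g y ≤ _ := card_le_card hsub
      _ ≤ _ := card_union_le _ _
      _ = _ := by rw [card_sdiff_of_subset hR, hRs]; rfl

/-- centre list contains `x`, centre coloured `x`, leaves avoid `y` -/
lemma star_x {k : ℕ} {Λ : Fin (k + 1) → Finset ℕ} (hΛ : ∀ t, (Λ t).card = 2) {x y : ℕ}
    (hxy : x ≠ y) (h0 : x ∈ Λ 0) : ∃ g, PS Λ g ∧ cnt g x ≤ 1 ∧ cnt g y ≤ nl Λ {x, y} := by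
  classical
  have key : ∀ t : Fin (k + 1), ∃ v, v ∈ Λ t ∧ (t = 0 → v = x) ∧ (t ≠ 0 → v ≠ x ∧
      (v = y → Λ t = {x, y})) := by
    intro t
    by_cases ht : t = 0
    · subst ht
      exact ⟨x, h0, fun _ => rfl, fun h => absurd rfl h⟩
    · by_cases hA : Λ t = {x, y}
      · exact ⟨y, by rw [hA]; simp, fun h => absurd h ht, fun _ => ⟨hxy.symm, fun _ => hA⟩⟩
      · have hne : ∃ z ∈ Λ t, z ≠ x ∧ z ≠ y := by
          by_contra hcon
          push Not at hcon
          apply hA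
          refine Finset.eq_of_subset_of_card_le ?_ ?_
          · intro z hz
            rw [mem_insert, mem_singleton]
            by_cases hzx : z = x
            · exact Or.inl hzx
            · exact Or.inr (hcon z hz hzx)
          · rw [hΛ t, card_pair hxy]
        obtain ⟨z, hz, hzx, hzy⟩ := hne
        exact ⟨z, hz, fun h => absurd h ht, fun _ => ⟨hzx, fun h => absurd h hzy⟩⟩
  choose g hg hg0 hg1 using key
  have hg00 : g 0 = x := hg0 0 rfl
  have hne : ∀ t, t ≠ 0 → g t ≠ g 0 := fun t ht => by rw [hg00]; exact (hg1 t ht).1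
  refine ⟨g, ⟨hg, hne⟩, ?_, ?_⟩
  · have := cnt_centre g hne
    rwa [hg00] at this
  · refine card_le_card fun t ht => ?_
    rw [mem_filter] at ht
    have ht0 : t ≠ 0 := by
      rintro rfl
      rw [hg00] at ht
      exact hxy ht.2
    rw [mem_filter, mem_erase]
    exact ⟨⟨ht0, mem_univ _⟩, (hg1 t ht0).2 ht.2⟩

/-- the star can absorb an imbalance of `Y` -/
def Abs {k : ℕ} (Λ : Fin (k + 1) → Finset ℕ) (x y Y : ℕ) : Prop :=
  ∃ g, PS Λ g ∧ 2 * cnt g x + Y ≤ k + 1 ∧ 2 * cnt g y ≤ k + 1 + Y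

lemma absorb_of {k : ℕ} {Λ : Fin (k + 1) → Finset ℕ} (hΛ : ∀ t, (Λ t).card = 2) {x y c : ℕ}
    (hxy : x ≠ y) (hc : c ∈ Λ 0) (hcx : c ≠ x) (hcy : c ≠ y)
    (h1 : 4 * nl Λ {c, x} ≤ k) (h2 : 2 * nl Λ {c, y} ≤ k)
    (h3 : nl Λ {c, x} + nl Λ {c, y} + nl Λ {x, y} ≤ k) {Y : ℕ} (hY : 2 * Y ≤ k + 2) :
    Abs Λ x y Y := by
  have hs : min (nl Λ {x, y}) ((k + 1 - Y) / 2 - nl Λ {c, x}) ≤ nl Λ {x, y} := min_le_left _ _
  obtain ⟨g, hg, hgx, hgy⟩ := flex hΛ hxy hc hcx hcy hs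
  refine ⟨g, hg, ?_, ?_⟩
  · omega
  · omega

lemma nl_disj {k : ℕ} (Λ : Fin (k + 1) → Finset ℕ) (F : Finset (Finset ℕ)) :
    ∑ A ∈ F, nl Λ A ≤ k := by
  classical
  unfold nl
  rw [← card_biUnion]
  · refine le_trans (card_le_card ?_) (card_univ_erase k).le
    intro t ht
    rw [mem_biUnion] at ht
    obtain ⟨A, _, hA⟩ := ht
    exact (mem_filter.1 hA).1
  · intro A _ B _ hAB
    show Disjoint _ _
    rw [disjoint_left]
    intro t ha hb
    rw [mem_filter] at ha hb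
    exact hAB (ha.2.symm.trans hb.2)

lemma pair_ne {a b c d : ℕ} (h : c ≠ a ∧ c ≠ b ∨ d ≠ a ∧ d ≠ b) : ({a, b} : Finset ℕ) ≠ {c, d} := by
  intro he
  rcases h with h | h
  · have : c ∈ ({a, b} : Finset ℕ) := by rw [he]; simp
    rw [mem_insert, mem_singleton] at this
    rcases this with h' | h'
    · exact h.1 h'
    · exact h.2 h'
  · have : d ∈ ({a, b} : Finset ℕ) := by rw [he]; simp
    rw [mem_insert, mem_singleton] at this
    rcases this with h' | h'
    · exact h.1 h'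
    · exact h.2 h'

lemma nl3 {k : ℕ} (Λ : Fin (k + 1) → Finset ℕ) {x y c : ℕ} (hxy : x ≠ y) (hcx : c ≠ x)
    (hcy : c ≠ y) : nl Λ {c, x} + nl Λ {c, y} + nl Λ {x, y} ≤ k := by
  classical
  have h1 : ({c, x} : Finset ℕ) ≠ {c, y} := pair_ne (Or.inr ⟨hcy.symm, hxy.symm⟩)
  have h2 : ({c, x} : Finset ℕ) ≠ {x, y} := pair_ne (Or.inr ⟨hcy.symm, hxy.symm⟩)
  have h3 : ({c, y} : Finset ℕ) ≠ {x, y} := pair_ne (Or.inl ⟨hcx.symm, hxy⟩)
  have := nl_disj Λ {{c, x}, {c, y}, {x, y}}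
  rw [sum_insert, sum_insert, sum_singleton] at this
  · omega
  · rw [mem_singleton]; exact h3
  · rw [mem_insert, mem_singleton]
    push Not
    exact ⟨h1, h2⟩

lemma nl5 {k : ℕ} (Λ : Fin (k + 1) → Finset ℕ) {x y c d : ℕ} (hxy : x ≠ y) (hcx : c ≠ x)
    (hcy : c ≠ y) (hdx : d ≠ x) (hdy : d ≠ y) (hcd : c ≠ d) :
    nl Λ {c, x} + nl Λ {c, y} + (nl Λ {d, x} + nl Λ {d, y} + nl Λ {x, y}) ≤ k := by
  classical
  have h1 : ({c, x} : Finset ℕ) ≠ {c, y} := pair_ne (Or.inr ⟨hcy.symm, hxy.symm⟩)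
  have h2 : ({c, x} : Finset ℕ) ≠ {x, y} := pair_ne (Or.inr ⟨hcy.symm, hxy.symm⟩)
  have h3 : ({c, y} : Finset ℕ) ≠ {x, y} := pair_ne (Or.inl ⟨hcx.symm, hxy⟩)
  have h4 : ({d, x} : Finset ℕ) ≠ {d, y} := pair_ne (Or.inr ⟨hdy.symm, hxy.symm⟩)
  have h5 : ({d, x} : Finset ℕ) ≠ {x, y} := pair_ne (Or.inr ⟨hdy.symm, hxy.symm⟩)
  have h6 : ({d, y} : Finset ℕ) ≠ {x, y} := pair_ne (Or.inl ⟨hdx.symm, hxy⟩)
  have h7 : ({c, x} : Finset ℕ) ≠ {d, x} := pair_ne (Or.inl ⟨hcd.symm, hdx⟩)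
  have h8 : ({c, x} : Finset ℕ) ≠ {d, y} := pair_ne (Or.inl ⟨hcd.symm, hdx⟩)
  have h9 : ({c, y} : Finset ℕ) ≠ {d, x} := pair_ne (Or.inl ⟨hcd.symm, hdy⟩)
  have h10 : ({c, y} : Finset ℕ) ≠ {d, y} := pair_ne (Or.inl ⟨hcd.symm, hdy⟩)
  have := nl_disj Λ {{c, x}, {c, y}, {d, x}, {d, y}, {x, y}}
  rw [sum_insert, sum_insert, sum_insert, sum_insert, sum_singleton] at this
  · omega
  · rw [mem_singleton]; exact h6
  · rw [mem_insert, mem_singleton]; push Not; exact ⟨h4, h5⟩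
  · rw [mem_insert, mem_insert, mem_singleton]; push Not; exact ⟨h9, h10, h3⟩
  · rw [mem_insert, mem_insert, mem_insert, mem_singleton]; push Not; exact ⟨h1, h7, h8, h2⟩

/-- **Absorbing stars**: a star with at least four leaves whose centre does not have the list
`{x, y}` can absorb an imbalance of one of the two signs. -/
lemma absorb {k : ℕ} (hk : 4 ≤ k) {Λ : Fin (k + 1) → Finset ℕ} (hΛ : ∀ t, (Λ t).card = 2)
    {x y : ℕ} (hxy : x ≠ y) (h0 : Λ 0 ≠ {x, y}) :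
    (∀ Y, 2 * Y ≤ k + 2 → Abs Λ x y Y) ∨ (∀ Y, 2 * Y ≤ k + 2 → Abs Λ y x Y) := by
  classical
  -- the case where some centre colour outside `{x, y}` has few forced leaves
  have main : ∀ c, c ∈ Λ 0 → c ≠ x → c ≠ y → 2 * (nl Λ {c, x} + nl Λ {c, y}) ≤ k →
      (∀ Y, 2 * Y ≤ k + 2 → Abs Λ x y Y) ∨ (∀ Y, 2 * Y ≤ k + 2 → Abs Λ y x Y) := by
    intro c hc hcx hcy hle
    have h3 := nl3 Λ hxy hcx hcy
    rcases le_total (nl Λ {c, x}) (nl Λ {c, y}) with h | h
    · left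
      intro Y hY
      exact absorb_of hΛ hxy hc hcx hcy (by omega) (by omega) h3 hY
    · right
      intro Y hY
      have hp : ({y, x} : Finset ℕ) = {x, y} := pair_comm _ _
      exact absorb_of hΛ hxy.symm hc hcy hcx (by omega) (by omega) (by rw [hp]; omega) hY
  obtain ⟨c, hc, hcx, hcy⟩ : ∃ c ∈ Λ 0, c ≠ x ∧ c ≠ y := by
    by_contra hcon
    push Not at hcon
    apply h0
    refine Finset.eq_of_subset_of_card_le ?_ ?_
    · intro z hz
      rw [mem_insert, mem_singleton]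
      by_cases hzx : z = x
      · exact Or.inl hzx
      · exact Or.inr (hcon z hz hzx)
    · rw [hΛ 0, card_pair hxy]
  obtain ⟨d, hd, hdc⟩ := exists_ne_of_card (hΛ 0) c
  by_cases hdx : d = x
  · subst hdx
    by_cases ha : 2 * nl Λ {d, y} ≤ k + 1
    · left
      intro Y hY
      obtain ⟨g, hg, hgx, hgy⟩ := star_x hΛ hxy hd
      exact ⟨g, hg, by omega, by omega⟩
    · have h3 := nl3 Λ hxy hcx hcy
      exact main c hc hcx hcy (by omega)
  · by_cases hdy : d = y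
    · subst hdy
      have hp : ({x, d} : Finset ℕ) = {d, x} := pair_comm _ _
      by_cases ha : 2 * nl Λ {d, x} ≤ k + 1
      · right
        intro Y hY
        obtain ⟨g, hg, hgx, hgy⟩ := star_x hΛ hxy.symm hd
        exact ⟨g, hg, by omega, by omega⟩
      · have h3 := nl3 Λ hxy hcx hcy
        rw [← hp] at ha
        exact main c hc hcx hcy (by omega)
    · have h5 := nl5 Λ hxy hcx hcy hdx hdy hdc.symm
      by_cases hle : 2 * (nl Λ {c, x} + nl Λ {c, y}) ≤ k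
      · exact main c hc hcx hcy hle
      · exact main d hd hdx hdy (by omega)

/-- absorbing nothing -/
lemma Abs.symm0 {k : ℕ} {Λ : Fin (k + 1) → Finset ℕ} {x y : ℕ} (h : Abs Λ x y 0) : Abs Λ y x 0 := by
  obtain ⟨g, hg, h1, h2⟩ := h
  exact ⟨g, hg, by omega, by omega⟩

/-- number of vertices of the star whose list contains `x` -/
def nin {k : ℕ} (Λ : Fin (k + 1) → Finset ℕ) (x : ℕ) : ℕ := (univ.filter (fun t => x ∈ Λ t)).card

lemma cnt_le_nin {k : ℕ} {Λ : Fin (k + 1) → Finset ℕ} {g : Fin (k + 1) → ℕ} (hg : PS Λ g) (x : ℕ) :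
    cnt g x ≤ nin Λ x := by
  refine card_le_card fun t ht => ?_
  rw [mem_filter] at ht ⊢
  exact ⟨ht.1, ht.2 ▸ hg.1 t⟩

lemma nin_le {k : ℕ} (Λ : Fin (k + 1) → Finset ℕ) (x : ℕ) : nin Λ x ≤ k + 1 := by
  have := card_filter_le (univ : Finset (Fin (k + 1))) (fun t => x ∈ Λ t)
  rw [card_univ, Fintype.card_fin] at this
  exact this

/-- **Complementary colourings**: two colourings which use, at every vertex, the two different
colours of its list. -/
lemma compl {k : ℕ} {Λ : Fin (k + 1) → Finset ℕ} (hΛ : ∀ t, (Λ t).card = 2) :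
    ∃ g g', PS Λ g ∧ PS Λ g' ∧ ∀ x, cnt g x + cnt g' x = nin Λ x := by
  classical
  obtain ⟨c, c', hcc, h0⟩ := Finset.card_eq_two.1 (hΛ 0)
  have key : ∀ t : Fin (k + 1), ∃ a b, a ≠ b ∧ Λ t = {a, b} ∧ (t = 0 → a = c ∧ b = c') ∧
      (t ≠ 0 → a ≠ c ∧ b ≠ c') := by
    intro t
    by_cases ht : t = 0
    · subst ht
      exact ⟨c, c', hcc, h0, fun _ => ⟨rfl, rfl⟩, fun h => absurd rfl h⟩
    · by_cases h1 : c ∈ Λ t
      · obtain ⟨z, hz, hzc⟩ := exists_ne_of_card (hΛ t) c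
        exact ⟨z, c, hzc, eq_pair (hΛ t) hz h1 hzc, fun h => absurd h ht, fun _ => ⟨hzc, hcc⟩⟩
      · by_cases h2 : c' ∈ Λ t
        · obtain ⟨z, hz, hzc⟩ := exists_ne_of_card (hΛ t) c'
          exact ⟨c', z, hzc.symm, eq_pair (hΛ t) h2 hz hzc.symm, fun h => absurd h ht,
            fun _ => ⟨hcc.symm, hzc⟩⟩
        · obtain ⟨a, b, hab, he⟩ := Finset.card_eq_two.1 (hΛ t)
          refine ⟨a, b, hab, he, fun h => absurd h ht, fun _ => ⟨?_, ?_⟩⟩
          · rintro rfl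
            exact h1 (by rw [he]; simp)
          · rintro rfl
            exact h2 (by rw [he]; simp)
  choose a b hab he hz hnz using key
  refine ⟨a, b, ⟨fun t => by rw [he t]; simp, fun t ht => ?_⟩,
    ⟨fun t => by rw [he t]; simp, fun t ht => ?_⟩, fun x => ?_⟩
  · rw [(hz 0 rfl).1]; exact (hnz t ht).1
  · rw [(hz 0 rfl).2]; exact (hnz t ht).2
  · unfold cnt nin
    rw [← card_union_of_disjoint]
    · congr 1
      ext t
      rw [mem_union, mem_filter, mem_filter, mem_filter, he t, mem_insert, mem_singleton]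
      constructor
      · rintro (h | h)
        · exact ⟨mem_univ _, Or.inl h.2.symm⟩
        · exact ⟨mem_univ _, Or.inr h.2.symm⟩
      · rintro ⟨_, h | h⟩
        · exact Or.inl ⟨mem_univ _, h.symm⟩
        · exact Or.inr ⟨mem_univ _, h.symm⟩
    · rw [disjoint_left]
      intro t h1 h2
      rw [mem_filter] at h1 h2
      exact hab t (h1.2.trans h2.2.symm)

end Pool.Agent.NH86.Stars
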